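import Pool.Agent.Hhelper66.PiBase

/-!
# A Hausdorff space with a base which does not contain a base and a disjoint pi-base (MP_42a2a8_gt)

The space is constructed in `Pool/Agent/Hhelper66/PiBase.lean`.
-/

set_option autoImplicit false

namespace Pool.Agent.Results.MP_42a2a8_gt.NoDisjointPiBase

open Cardinal

/-- a base: a family of open sets such that every open set is a union of members of the family -/
def IsBase {X : Type} [TopologicalSpace X] (B : Set (Set X)) : Prop :=
  (∀ V ∈ B, IsOpen V) ∧ ∀ U : Set X, IsOpen U → ∃ S : Set (Set X), S ⊆ B ∧ U = ⋃₀ S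

/-- a pi-base: a family of nonempty open sets such that every nonempty open set contains a member
of the family -/
def IsPiBase {X : Type} [TopologicalSpace X] (P : Set (Set X)) : Prop :=
  (∀ V ∈ P, IsOpen V ∧ V.Nonempty) ∧ ∀ U : Set X, IsOpen U → U.Nonempty → ∃ V ∈ P, V ⊆ U

private theorem basis_of_isBase {X : Type} [TopologicalSpace X] {B : Set (Set X)}
    (h : IsBase B) : TopologicalSpace.IsTopologicalBasis B := by
  refine TopologicalSpace.isTopologicalBasis_of_isOpen_of_nhds h.1 fun x U hx hU => ?_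
  obtain ⟨S, hS, rfl⟩ := h.2 U hU
  obtain ⟨V, hV, hxV⟩ := hx
  exact ⟨V, hS hV, hxV, Set.subset_sUnion_of_mem hV⟩

open Hhelper66.PiBase Hhelper66.PiBase.T in
/-- There is a Hausdorff space without isolated points, of cardinality at most the continuum, with
a point-countable base `B` such that no base contained in `B` is disjoint from a pi-base contained
in `B`. -/
theorem result : ∃ (X : Type) (_ : TopologicalSpace X) (B : Set (Set X)),
    Nonempty X ∧ T2Space X ∧ (∀ x : X, ¬ IsOpen ({x} : Set X)) ∧ #X ≤ 𝔠 ∧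
    IsBase B ∧ (∀ x : X, {V ∈ B | x ∈ V}.Countable) ∧
    ∀ B0 ⊆ B, IsBase B0 → ¬ ∃ B1 ⊆ B \ B0, IsPiBase B1 := by
  refine ⟨Sys, inferInstance, Base, ?_, t2, no_isolated, mk_Sys_le, ?_, ?_, ?_⟩
  · obtain ⟨S, -⟩ := exists_sys_root (Adm.leaf (fun _ => false) [])
    exact ⟨S⟩
  · exact ⟨fun V hV => base_isBasis.isOpen hV, fun U hU => base_isBasis.open_eq_sUnion hU⟩
  · intro S
    have h1 : ({p : T | ∃ n, p ∈ D (S.sq (br S) n)}).Countable := by
      have : {p : T | ∃ n, p ∈ D (S.sq (br S) n)} = ⋃ n, D (S.sq (br S) n) := by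
        ext p
        simp
      rw [this]
      exact Set.countable_iUnion fun n => (D_finite _).countable
    refine (h1.image U).mono ?_
    rintro V ⟨⟨p, hp, rfl⟩, hS⟩
    exact ⟨p, hS, rfl⟩
  · rintro B0 h0 hb ⟨B1, h1, hπ⟩
    refine no_split B0 B1 h0 (fun V hV => (h1 hV).1) ?_ (basis_of_isBase hb) hπ.2
    rw [Set.disjoint_left]
    exact fun V hV hV1 => (h1 hV1).2 hV

end Pool.Agent.Results.MP_42a2a8_gt.NoDisjointPiBase
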